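import Pool.Agent.P.MP_98c3cf_nt.Main

open Filter

theorem Pool.Agent.Results.MP_98c3cf_nt.CubicConstant.result :
    ∀ a : ℕ → ℕ, a 0 = 1 → (∀ n, a n < a (n + 1)) →
      (∀ n i j k l, i ≤ n → j ≤ n → k ≤ n → l ≤ n →
        a i + a j = a k + a l → (i = k ∧ j = l) ∨ (i = l ∧ j = k)) →
      (∀ n m, a n < m → m < a (n + 1) →
        ∃ i j k, i ≤ n ∧ j ≤ n ∧ k ≤ n ∧
          (m + a i = a j + a k ∨ m + m = a j + a k)) →
      ∀ᶠ n : ℕ in atTop, (a n : ℝ) ≤ 0.165 * (n : ℝ) ^ 3 := by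
  intro a h0 h1 _ h3
  exact Pool.Agent.P.MP_98c3cf_nt.growth ⟨h0, strictMono_nat_of_lt_succ h1, h3⟩
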